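import Mathlib
import Pool.Agent.Lib.Pd4325e.Assemble

/-!
# The sum of `C(2k,k)^2 C(3k,k) / 1458^k` modulo `p^2`: full affirmative answer to Q1
-/

set_option autoImplicit false

namespace Pool.Agent.Results.MP_d4325e_nt.FullAnswer

open Pool.Agent.Lib.Pffaf6e Pool.Agent.Lib.Pd4325e

/-- the sum `S(p)` -/
def S (p : ℕ) : ℚ :=
  ∑ k ∈ Finset.range p, (((2 * k).choose k : ℕ) : ℚ) ^ 2 * (((3 * k).choose k : ℕ) : ℚ) / 1458 ^ k

/-- the denominator of `q` is prime to `p` -/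
def PInt (p : ℕ) (q : ℚ) : Prop := ¬ p ∣ q.den

/-- `u ≡ v (mod p^2)`: `u` and `v` have denominators prime to `p`, and `u - v = p^2 c` for a rational `c`
with denominator prime to `p` -/
def CongSq (p : ℕ) (u v : ℚ) : Prop :=
  PInt p u ∧ PInt p v ∧ ∃ c : ℚ, PInt p c ∧ u - v = (p : ℚ) ^ 2 * c

lemma pint_div (p : ℕ) (a : ℤ) (b : ℕ) (hb : ¬ p ∣ b) : PInt p ((a : ℚ) / (b : ℚ)) := by
  intro hd
  apply hb
  have h1 : (((a : ℚ) / (b : ℚ)).den : ℤ) ∣ (b : ℤ) := by
    have := Rat.den_dvd a (b : ℤ)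
    rw [Rat.divInt_eq_div] at this
    push_cast at this
    exact this
  have h2 : ((a : ℚ) / (b : ℚ)).den ∣ b := Int.natCast_dvd_natCast.mp h1
  exact hd.trans h2

lemma Red.pint {p : ℕ} [Fact p.Prime] {q : ℚ} {x : ZMod (p ^ 2)} (h : Red p q x) : PInt p q := by
  obtain ⟨a, b, hb, rfl, _⟩ := h
  exact pint_div p a b hb

lemma Red.zero_exists {p : ℕ} [Fact p.Prime] {q : ℚ} (h : Red p q 0) :
    ∃ c : ℚ, PInt p c ∧ q = (p : ℚ) ^ 2 * c := by
  obtain ⟨a, b, hb, hq, hx⟩ := h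
  rw [zero_mul] at hx
  have h1 : ((p ^ 2 : ℕ) : ℤ) ∣ a := by
    rw [← ZMod.intCast_zmod_eq_zero_iff_dvd]
    exact hx.symm
  obtain ⟨a', ha'⟩ := h1
  refine ⟨(a' : ℚ) / (b : ℚ), pint_div p a' b hb, ?_⟩
  rw [hq, ha']
  push_cast
  ring

lemma congSq_of_red {p : ℕ} [Fact p.Prime] {u v : ℚ} {x : ZMod (p ^ 2)} (hu : Red p u x) (hv : Red p v x) :
    CongSq p u v :=
  ⟨Red.pint hu, Red.pint hv, Red.zero_exists ((hu.sub hv).congr rfl (sub_self x))⟩

lemma red_S (p : ℕ) [hp : Fact p.Prime] (h5 : 5 ≤ p) :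
    Red p (S p) (∑ k ∈ Finset.range p, (a k : ZMod (p ^ 2)) * (j2 p * j3 p ^ 6) ^ k) := by
  unfold S
  refine Red.sum _ ?_
  intro k _
  have h1 := (Red.int p (a k)).mul ((((red_half' p h5).mul ((red_third' p h5).pow 6)).congr
    (q' := 1 / 1458) (by norm_num) rfl).pow k)
  refine h1.congr ?_ rfl
  unfold a b
  push_cast
  rw [one_div, inv_pow, div_eq_mul_inv]
  ring

lemma not_dvd_int (p : ℕ) (hp : p.Prime) (n : ℤ) : PInt p (n : ℚ) := by
  unfold PInt
  rw [Rat.den_intCast]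
  intro h
  have := Nat.le_of_dvd one_pos h
  have := hp.one_lt
  omega

/-- **Full answer to Q1 (affirmative).** For every prime `p > 3` the rational `S(p)` has denominator prime
to `p`; if `p ≡ 1 (mod 3)` then `p = x^2 + 3y^2` has integer solutions and for each of them
`S(p) ≡ 4x^2 - 2p (mod p^2)`; if `p ≡ 2 (mod 3)` then `S(p) ≡ 0 (mod p^2)`. -/
theorem result : ∀ p : ℕ, p.Prime → 3 < p →
    (p % 3 = 1 → (∃ x y : ℤ, (p : ℤ) = x ^ 2 + 3 * y ^ 2) ∧
      ∀ x y : ℤ, (p : ℤ) = x ^ 2 + 3 * y ^ 2 → CongSq p (S p) (4 * (x : ℚ) ^ 2 - 2 * (p : ℚ))) ∧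
    (p % 3 = 2 → CongSq p (S p) 0) := by
  intro p hpp hp3
  haveI : Fact p.Prime := ⟨hpp⟩
  have hodd : p % 2 = 1 := by
    rcases hpp.eq_two_or_odd with h | h
    · omega
    · exact h
  have h5 : 5 ≤ p := by omega
  constructor
  · intro hmod
    obtain ⟨h, h6⟩ : ∃ h, p = 6 * h + 1 := ⟨p / 6, by omega⟩
    have hpos : 0 < h := by omega
    obtain ⟨X, Y, hXY, hval⟩ := split_case p h h6 hpos
    refine ⟨⟨X, Y, hXY⟩, ?_⟩
    intro x y hxy
    have hxX := rep_unique' p hpp x y X Y hxy hXY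
    have rS := red_S p h5
    rw [hval] at rS
    apply congSq_of_red rS
    have r2 := ((Red.int p 4).mul ((Red.int p x).pow 2)).sub ((Red.int p 2).mul (Red.nat p p))
    refine r2.congr (by push_cast; ring) ?_
    have h1 := congrArg (fun z : ℤ => (z : ZMod (p ^ 2))) hxX
    push_cast at h1 ⊢
    rw [h1]
  · intro hmod
    obtain ⟨m, hm⟩ : ∃ m, p = 6 * m + 5 := ⟨p / 6, by omega⟩
    rcases Nat.eq_zero_or_pos m with hm0 | hm0
    · -- p = 5
      have hp5 : p = 5 := by omega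
      subst hp5
      have r : Red 5 (S 5) 0 := by
        refine ⟨1458 ^ 4 + 12 * 1458 ^ 3 + 540 * 1458 ^ 2 + 33600 * 1458 + 2425500, 1458 ^ 4, by norm_num, ?_, ?_⟩
        · unfold S
          simp only [Finset.sum_range_succ, Finset.sum_range_zero]
          norm_num [Nat.choose]
        · rw [zero_mul]
          symm
          rw [ZMod.intCast_zmod_eq_zero_iff_dvd]
          norm_num
      exact congSq_of_red r (Red.zero 5)
    · have hval := inert_case p m hm (by omega)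
      have rS := red_S p h5
      rw [hval] at rS
      exact congSq_of_red rS (Red.zero p)

end Pool.Agent.Results.MP_d4325e_nt.FullAnswer
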